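import Mathlib

/-!
# Balancing by units (module S_UNIT of helper91's project AV)
-/

set_option autoImplicit false
set_option linter.unusedSectionVars false

namespace Pool.Agent.Helper48.AV

open NumberField NumberField.InfinitePlace NumberField.Units NumberField.Units.dirichletUnitTheorem
open scoped Classical

/-- sums over embeddings of functions of the place -/
lemma sum_place (F : Type) [Field F] [NumberField F] (f : InfinitePlace F → ℝ) :
    ∑ σ : F →+* ℂ, f (InfinitePlace.mk σ) = ∑ w : InfinitePlace F, (mult w : ℝ) * f w := by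
  rw [← Finset.sum_fiberwise (s := Finset.univ) (g := fun σ : F →+* ℂ => InfinitePlace.mk σ)]
  refine Finset.sum_congr rfl fun w _ => ?_
  rw [Finset.sum_congr rfl (g := fun _ => f w), Finset.sum_const, nsmul_eq_mul,
    ← InfinitePlace.card_filter_mk_eq]
  intro σ hσ
  rw [Finset.mem_filter] at hσ
  rw [hσ.2]

/-- every vector of the logarithmic space is at bounded distance from a unit -/
lemma near_unit (F : Type) [Field F] [NumberField F] : ∃ R : ℝ, 0 ≤ R ∧
    ∀ x : logSpace F, ∃ u : (𝓞 F)ˣ, ∀ w : {w : InfinitePlace F // w ≠ w₀},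
      |mult w.val * Real.log (w.val (u : F)) - x w| ≤ R := by
  let b := (basisUnitLattice F).ofZLatticeBasis ℝ (unitLattice F)
  refine ⟨∑ i, ‖b i‖, Finset.sum_nonneg fun _ _ => norm_nonneg _, fun x => ?_⟩
  have h1 : ((ZSpan.floor b x : Submodule.span ℤ (Set.range b)) : logSpace F) ∈ unitLattice F := by
    have h2 := (ZSpan.floor b x).2
    have h3 : Submodule.span ℤ (Set.range b) = unitLattice F :=
      (basisUnitLattice F).ofZLatticeBasis_span ℝ
    exact h3.le h2
  obtain ⟨u, -, hu⟩ := h1
  refine ⟨u.toMul, fun w => ?_⟩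
  have h4 := ZSpan.norm_fract_le b x
  have h5 := norm_le_pi_norm (ZSpan.fract b x) w
  rw [ZSpan.fract_apply, ← hu] at h5
  rw [ZSpan.fract_apply, ← hu] at h4
  refine le_trans (le_of_eq ?_) (h5.trans h4)
  rw [Real.norm_eq_abs, ← abs_neg]
  congr 1
  simp only [Pi.sub_apply]
  change -(_ - x w) = x w - logEmbedding F u w
  rw [← ofMul_toMul u, logEmbedding_component]
  simp

/-- MODULE S_UNIT: balancing by units -/
theorem unit : ∀ (F : Type) [Field F] [NumberField F], ∃ c : ℝ, 0 < c ∧
    ∀ t : (F →+* ℂ) → ℝ, (∀ σ, 0 < t σ) →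
    (∀ σ, t (NumberField.ComplexEmbedding.conjugate σ) = t σ) →
    ∃ u : (𝓞 F)ˣ, ∀ σ : F →+* ℂ, ‖σ ((u : 𝓞 F) : F)‖ * t σ ≤
      c * (∏ τ : F →+* ℂ, t τ) ^ ((1 : ℝ) / (Module.finrank ℚ F : ℝ)) := by
  intro F _ _
  obtain ⟨R, hR, hR'⟩ := near_unit F
  refine ⟨Real.exp (Fintype.card (InfinitePlace F) * R), Real.exp_pos _, fun t ht htc => ?_⟩
  -- the function on places
  let s : InfinitePlace F → ℝ := fun w => Real.log (t w.embedding)
  have hs : ∀ σ, Real.log (t σ) = s (InfinitePlace.mk σ) := by
    intro σ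
    change _ = Real.log (t (InfinitePlace.mk σ).embedding)
    rcases InfinitePlace.embedding_mk_eq σ with h | h
    · rw [h]
    · rw [h, htc]
  have hd : (0 : ℝ) < Module.finrank ℚ F := by
    exact_mod_cast Module.finrank_pos
  set d : ℝ := (Module.finrank ℚ F : ℝ) with hddef
  set T : ℝ := ∑ σ, Real.log (t σ) with hT
  have hT' : T = ∑ w : InfinitePlace F, (mult w : ℝ) * s w := by
    rw [hT, ← sum_place]
    exact Finset.sum_congr rfl fun σ _ => hs σ
  have hmult : ∑ w : InfinitePlace F, (mult w : ℝ) = d := by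
    rw [hddef, ← InfinitePlace.sum_mult_eq]
    push_cast
    rfl
  let x : InfinitePlace F → ℝ := fun w => (mult w : ℝ) * (T / d - s w)
  have hx : ∑ w, x w = 0 := by
    have : ∑ w, x w = (∑ w : InfinitePlace F, (mult w : ℝ)) * (T / d) -
        ∑ w : InfinitePlace F, (mult w : ℝ) * s w := by
      rw [Finset.sum_mul, ← Finset.sum_sub_distrib]
      exact Finset.sum_congr rfl fun w _ => by simp only [x]; ring
    rw [this, hmult, ← hT']
    field_simp
    ring
  obtain ⟨u, hu⟩ := hR' (fun w => x w.1)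
  refine ⟨u, ?_⟩
  set y : InfinitePlace F → ℝ := fun w => (mult w : ℝ) * Real.log (w (u : F)) - x w with hy
  have hysum : ∑ w, y w = 0 := by
    rw [hy, Finset.sum_sub_distrib, hx, sub_zero]
    exact sum_mult_mul_log u
  have hcard : (1 : ℝ) ≤ Fintype.card (InfinitePlace F) := by
    exact_mod_cast Fintype.card_pos (α := InfinitePlace F)
  have hyb : ∀ w, y w ≤ Fintype.card (InfinitePlace F) * R := by
    intro w
    by_cases hw : w = w₀
    · have h1 : y w₀ = - ∑ w : {w : InfinitePlace F // w ≠ w₀}, y w.1 := by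
        rw [Fintype.sum_eq_add_sum_subtype_ne _ w₀] at hysum
        linarith
      rw [hw, h1]
      calc - ∑ w : {w : InfinitePlace F // w ≠ w₀}, y w.1
          ≤ |∑ w : {w : InfinitePlace F // w ≠ w₀}, y w.1| := neg_le_abs _
        _ ≤ ∑ w : {w : InfinitePlace F // w ≠ w₀}, |y w.1| := Finset.abs_sum_le_sum_abs _ _
        _ ≤ ∑ w : {w : InfinitePlace F // w ≠ w₀}, R := Finset.sum_le_sum fun w _ => hu w
        _ = Fintype.card {w : InfinitePlace F // w ≠ w₀} * R := by
            rw [Finset.sum_const, nsmul_eq_mul, Finset.card_univ]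
        _ ≤ Fintype.card (InfinitePlace F) * R := by
            apply mul_le_mul_of_nonneg_right _ hR
            exact_mod_cast Fintype.card_subtype_le _
    · have := (le_abs_self _).trans (hu ⟨w, hw⟩)
      calc y w ≤ R := this
        _ = 1 * R := (one_mul R).symm
        _ ≤ _ := by gcongr
  have hkey : ∀ w : InfinitePlace F, Real.log (w (u : F)) + s w ≤
      Fintype.card (InfinitePlace F) * R + T / d := by
    intro w
    have h1 := hyb w
    have h2 : y w = (mult w : ℝ) * (Real.log (w (u : F)) + s w - T / d) := by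
      simp only [hy, x]
      ring
    rw [h2] at h1
    have h3 : (1 : ℝ) ≤ mult w := by exact_mod_cast InfinitePlace.mult_pos (w := w)
    have h4 : 0 ≤ Fintype.card (InfinitePlace F) * R := by positivity
    by_contra hc
    push Not at hc
    have h5 : Fintype.card (InfinitePlace F) * R < Real.log (w (u : F)) + s w - T / d := by linarith
    nlinarith
  intro σ
  have hpos : 0 < (InfinitePlace.mk σ) (u : F) := Units.pos_at_place _ _
  have hprod : 0 < ∏ τ : F →+* ℂ, t τ := Finset.prod_pos fun τ _ => ht τ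
  have h1 := hkey (InfinitePlace.mk σ)
  rw [← hs σ, ← Real.log_mul hpos.ne' (ht σ).ne'] at h1
  rw [← InfinitePlace.apply σ]
  rw [Real.log_le_iff_le_exp (mul_pos hpos (ht σ)), Real.exp_add] at h1
  refine h1.trans (le_of_eq ?_)
  congr 1
  rw [Real.rpow_def_of_pos hprod, Real.log_prod (fun τ _ => (ht τ).ne'), ← hT]
  congr 1
  ring

end Pool.Agent.Helper48.AV
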